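import Mathlib
import Pool.Agent.H.MP_c87117_nt.A

namespace Pool.Agent.Results.MP_c87117_nt.Yes

open Finset Polynomial Pool.Agent.H.MP_c87117_nt

/-- the Lucas sequence `U_n(11,1)` -/
def U : ℕ → ℤ
  | 0 => 0
  | 1 => 1
  | n + 2 => 11 * U (n + 1) - U n

def S (p : ℕ) : ℤ := ∑ k ∈ range ((p - 1) / 2 + 1), ((2 * k).choose k : ℤ) ^ 2 * U k

lemma binet {F : Type*} [Field F] (a b : F) (h1 : a + b = 11) (h2 : a * b = 1) :
    ∀ n, (b - a) * (U n : F) = b ^ n - a ^ n
  | 0 => by simp [U]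
  | 1 => by simp [U]
  | n + 2 => by
    have e1 := binet a b h1 h2 n
    have e2 := binet a b h1 h2 (n + 1)
    rw [U]
    push_cast
    linear_combination 11 * e2 - e1 - (b ^ (n + 1) - a ^ (n + 1)) * h1 + (b ^ n - a ^ n) * h2

lemma cb {F : Type*} [Field F] (h : ℕ) (hh : (2 * h + 1 : F) = 0)
    (hn : ∀ n : ℕ, 0 < n → n ≤ 2 * h → (2 * n : F) ≠ 0) (k : ℕ) (hk : k ≤ h) :
    ((2 * k).choose k : F) = (-4) ^ k * h.choose k := by
  induction k with
  | zero => simp
  | succ k ih =>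
    have h1 := congrArg (Nat.cast : ℕ → F) (Nat.succ_mul_centralBinom_succ k)
    have h2 := congrArg (Nat.cast : ℕ → F) (Nat.choose_succ_right_eq h k)
    rw [Nat.centralBinom_eq_two_mul_choose, Nat.centralBinom_eq_two_mul_choose] at h1
    rw [Nat.cast_mul, Nat.cast_mul, Nat.cast_sub (by omega : k ≤ h)] at h2
    have h3 := right_ne_zero_of_mul (hn (k + 1) (by omega) (by omega))
    have h4 := ih (by omega)
    push_cast at h1 h2 h3
    apply mul_left_cancel₀ h3
    rw [h1, h4]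
    linear_combination (4 * (-4) ^ k) * h2 + (2 * (-4) ^ k * (h.choose k : F)) * hh

theorem result (p : ℕ) (hp : p.Prime) (h3 : 3 < p)
    (hm : p % 13 ∈ ({1, 3, 4, 9, 10, 12} : Finset ℕ)) : (p : ℤ) ∣ S p := by
  have := Fact.mk hp
  have : Fact (Nat.Prime 13) := ⟨by norm_num⟩
  have hsq : IsSquare ((p : ℕ) : ZMod 13) := by
    rw [← ZMod.natCast_mod]
    simp only [mem_insert, mem_singleton] at hm
    rcases hm with h | h | h | h | h | h <;> rw [h]
    exacts [⟨1, by decide +revert⟩, ⟨4, by decide +revert⟩, ⟨2, by decide +revert⟩,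
      ⟨3, by decide +revert⟩, ⟨6, by decide +revert⟩, ⟨5, by decide +revert⟩]
  obtain ⟨s, hs⟩ := (ZMod.exists_sq_eq_prime_iff_of_mod_four_eq_one (p := 13) (q := p) (by norm_num)
    (by omega)).1 hsq
  have nz : ∀ n : ℕ, 0 < n → n < p → (n : ZMod p) ≠ 0 := fun n h0 h1 h =>
    absurd (Nat.le_of_dvd h0 ((ZMod.natCast_eq_zero_iff _ _).1 h)) (by omega)
  have n2 : (2 : ZMod p) ≠ 0 := by exact_mod_cast nz 2 (by omega) (by omega)
  have n3 : (3 : ZMod p) ≠ 0 := by exact_mod_cast nz 3 (by omega) (by omega)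
  have n13 : ((13 : ℕ) : ZMod p) ≠ 0 := fun h => by
    have := (Nat.prime_dvd_prime_iff_eq hp (by norm_num)).1 ((ZMod.natCast_eq_zero_iff _ _).1 h)
    subst this
    simp at hm
  obtain ⟨h, hph⟩ := hp.odd_of_ne_two (by omega)
  have hh : (2 * h + 1 : ZMod p) = 0 := by
    have := ZMod.natCast_self p
    rwa [show ((p : ℕ) : ZMod p) = ((2 * h + 1 : ℕ) : ZMod p) by rw [← hph], Nat.cast_add,
      Nat.cast_mul, Nat.cast_one] at this
  have hn : ∀ n : ℕ, 0 < n → n ≤ 2 * h → (2 * n : ZMod p) ≠ 0 := fun n h0 h1 =>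
    mul_ne_zero n2 (nz n h0 (by omega))
  have s0 : s ≠ 0 := fun h => n13 (by rw [hs, h, mul_zero])
  have hs' : s * s = 13 := by rw [← hs]; norm_cast
  obtain ⟨i, hi⟩ : ∃ i : ZMod p, 2 * i = 1 := ⟨2⁻¹, mul_inv_cancel₀ n2⟩
  set a := (11 - 3 * s) * i with ha
  set b := (11 + 3 * s) * i with hb
  have ea : 2 * a = 11 - 3 * s := by rw [ha]; linear_combination (11 - 3 * s) * hi
  have eb : 2 * b = 11 + 3 * s := by rw [hb]; linear_combination (11 + 3 * s) * hi
  have hab1 : a + b = 11 := mul_left_cancel₀ n2 (by linear_combination ea + eb)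
  have hab2 : a * b = 1 := mul_left_cancel₀ (mul_ne_zero n2 n2) (by
    linear_combination (2 * b) * ea + (11 - 3 * s) * eb - 9 * hs')
  have hba : b - a ≠ 0 := fun h => mul_ne_zero n3 s0 (mul_left_cancel₀ n2 (by
    linear_combination 2 * h + ea - eb))
  have r0 : (1 + 2 * (3 + s)) ≠ 0 := fun h => n3 (by linear_combination (2 * s - 7) * h - 4 * hs')
  have fer := ZMod.pow_card_sub_one_eq_one r0
  rw [show p - 1 = 2 * h by omega] at fer
  have key := congrArg (eval (3 + s)) (u_eq_v h hh hn)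
  unfold u v at key
  simp only [eval_finsetSum, eval_mul, eval_pow, eval_add, eval_X, eval_natCast, eval_ofNat,
    eval_one] at key
  have e1 : (3 + s) * (2 + (3 + s)) ^ 3 = 16 * a * (1 + 2 * (3 + s)) ^ 3 := by
    linear_combination (-8 * (7 + 2 * s) ^ 3) * ea + (193 * s ^ 2 + 1330 * s + 2293) * hs'
  have e2 : (3 + s) ^ 3 * (2 + (3 + s)) = 16 * b * (1 + 2 * (3 + s)) := by
    linear_combination (-8 * (7 + 2 * s)) * eb + (s ^ 2 + 14 * s + 37) * hs'
  rw [← ZMod.intCast_zmod_eq_zero_iff_dvd]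
  unfold S
  rw [show (p - 1) / 2 = h by omega]
  push_cast
  apply mul_left_cancel₀ (mul_ne_zero (pow_ne_zero h r0) hba)
  rw [mul_zero, ← sub_eq_zero.2 key.symm, ← sum_sub_distrib, mul_sum]
  refine sum_congr rfl fun k hk => ?_
  have hk' : k ≤ h := by have := mem_range.1 hk; omega
  rw [cb h hh hn k hk']
  obtain ⟨j, rfl⟩ := Nat.exists_eq_add_of_le hk'
  rw [Nat.add_sub_cancel_left, pow_mul, pow_mul, pow_mul, ← mul_pow, ← mul_pow, e1, e2]
  have bi := binet a b hab1 hab2 k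
  generalize (1 + 2 * (3 + s)) = r at *
  clear_value a b
  have e16 : ((-4 : ZMod p) ^ k) ^ 2 = 16 ^ k := by rw [← pow_mul, mul_comm, pow_mul]; norm_num
  push_cast
  rw [mul_pow, e16, mul_pow, mul_pow, mul_pow, mul_pow]
  linear_combination (r ^ (k + j) * 16 ^ k * ((k + j).choose k : ZMod p) ^ 2) * bi +
    (r ^ (k + j) * 16 ^ k * a ^ k * ((k + j).choose k : ZMod p) ^ 2) * fer

end Pool.Agent.Results.MP_c87117_nt.Yes
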